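import Pool.Agent.Helper9.UNI.AsmC

open Filter Topology NumberField

namespace Pool.Agent.Results.MP_9a3c31_nt.Concentration

open Pool.Agent.Helper42.LK

/-- The points `P 0, …, P (m - 1)` are linearly independent. -/
def Indep {K : Type} [Field K] [DecidableEq K] {A B : K} {m : ℕ}
    (P : Fin m → (ECK A B).toAffine.Point) : Prop :=
  ∀ k : Fin m → ℤ, k ≠ 0 → ∑ i, k i • P i ≠ 0

/-- `G` is the matrix of the height pairing of the points `P`: the canonical height
`lim h (x (2 ^ n Q)) / 4 ^ n` of `Q = ∑ k i • P i` is `∑ k i * k j * G i j`, for all integers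
`k i`. -/
def IsGram {K : Type} [Field K] [NumberField K] [DecidableEq K] {A B : K} {m : ℕ}
    (P : Fin m → (ECK A B).toAffine.Point) (G : Matrix (Fin m) (Fin m) ℝ) : Prop :=
  G.IsSymm ∧ ∀ k : Fin m → ℤ, Tendsto (fun n : ℕ => hxK (2 ^ n • ∑ i, k i • P i) / 4 ^ n) atTop
    (𝓝 (∑ i, ∑ j, (k i : ℝ) * (k j : ℝ) * G i j))

/-- the `x`-coordinate of a point, `0` at the origin -/
def xc {K : Type} [Field K] {A B : K} : (ECK A B).toAffine.Point → K
  | .zero => 0
  | .some x _ _ => x

/-- the `j`-invariant -/
def jInv {K : Type} [Field K] (A B : K) : K := 6912 * A ^ 3 / (4 * A ^ 3 + 27 * B ^ 2)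

/-- The archimedean part of `HK`: the sum of `n_w * max 0 (log |j|_w)` over the infinite places
`w`. -/
noncomputable def arch {K : Type} [Field K] [NumberField K] (A B : K) : ℝ :=
  ∑ w : InfinitePlace K, (w.mult : ℝ) * max 0 (Real.log (w (jInv A B)))

/-- The position `max 0 (min (-log |z|_v) (log |j|_v / 2))`, `z = 3 + 2 * A * x / B`, of the
component of a point `(x, y)` at a place `v` of multiplicative reduction not above 6: `log |j|_v`
is the order of the group of components (times `log N v`), and the position is the distance of the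
component of the point from the component of the origin (times `log N v`). -/
noncomputable def al {K : Type} [Field K] (v : K → ℝ) (A B x : K) : ℝ :=
  open Classical in if 3 + 2 * A * x / B = 0 then Real.log (v (jInv A B)) / 2
    else max 0 (min (-Real.log (v (3 + 2 * A * x / B))) (Real.log (v (jInv A B)) / 2))

/-- 12 times the position divided by the order, `0` if the reduction is not multiplicative. -/
noncomputable def tz {K : Type} [Field K] (v : K → ℝ) (A B x : K) : ℝ :=
  open Classical in if IsMul v A B then 12 * al v A B x / Real.log (v (jInv A B)) else 0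

/-- equal up to sign and integers -/
def Eqv (a b : ℝ) : Prop := ∃ n : ℤ, a = b + n ∨ a = -b + n

/-- `v ~ v'`: the same place, or two places not above 6 with the same `tz` of all points
`(x i, y i)`, up to sign and integers. -/
def Same {K : Type} [Field K] [NumberField K] (A B : K) {m : ℕ} (x : Fin m → K)
    (v v' : FinitePlace K) : Prop :=
  v = v' ∨ (v 2 = 1 ∧ v 3 = 1 ∧ v' 2 = 1 ∧ v' 3 = 1 ∧
    ∀ i, Eqv (tz (fun z : K => v z) A B (x i)) (tz (fun z : K => v' z) A B (x i)))

/-- The concentration of the discriminant: `1` plus the square of the archimedean part plus the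
sum of `dl_v * dl_v'` over the `(v, v')` in `T ^ 2` with `v ~ v'`, divided by `(1 + HK) ^ 2`. -/
noncomputable def rho {K : Type} [Field K] [NumberField K] (A B : K) {m : ℕ} (x : Fin m → K)
    (T : Finset (FinitePlace K)) : ℝ :=
  (1 + arch A B ^ 2 + open Classical in ∑ v ∈ T, ∑ v' ∈ T, if Same A B x v v' then
    dl (fun z : K => v z) A B * dl (fun z : K => v' z) A B else 0) / (1 + HK A B) ^ 2

/-- Lower bounds for the regulator of `m` independent points `P i = (x i, y i)` on the elliptic
curve `y ^ 2 = x ^ 3 + A x + B` over the number field `K` and for the height of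
`(P 0, …, P (m - 1))` on `E ^ m` with respect to the polarisation given by a positive definite
integral matrix `S`, in terms of the concentration of the discriminant on the sets of places at
which the points have the same component positions, and in terms of the number `mK` of places of
multiplicative reduction; `c` depends on `m` and on a bound `d` for the degree of `K` only. -/
theorem result (d m : ℕ) (hm : 1 ≤ m) :
    ∃ c : ℝ, 0 < c ∧ ∀ (K : Type) [Field K] [NumberField K] [DecidableEq K],
    Module.finrank ℚ K ≤ d → ∀ A B : K, 4 * A ^ 3 + 27 * B ^ 2 ≠ 0 →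
    ∀ P : Fin m → (ECK A B).toAffine.Point, Indep P →
    ∃ G : Matrix (Fin m) (Fin m) ℝ, IsGram P G ∧
      (∀ T : Finset (FinitePlace K),
        c * (1 + HK A B) ^ m * rho A B (fun i => xc (P i)) T ^
          (min ((2 * (m : ℝ) + 6) / 3) (((m : ℝ) + 6) / 2)) ≤ G.det ∧
        ∀ S : Matrix (Fin m) (Fin m) ℤ, (S.map (fun z : ℤ => (z : ℝ))).PosDef →
          c * (1 + HK A B) * rho A B (fun i => xc (P i)) T ^
            (min ((2 * (m : ℝ) + 6) / 3) (((m : ℝ) + 6) / 2) / m) ≤
            ∑ i, ∑ j, (S i j : ℝ) * G i j) ∧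
      c * (1 + HK A B) ^ m *
        (1 + (mK A B : ℝ)) ^ (-(min ((2 * (m : ℝ) + 6) / 3) (((m : ℝ) + 6) / 2))) ≤ G.det ∧
      ∀ S : Matrix (Fin m) (Fin m) ℤ, (S.map (fun z : ℤ => (z : ℝ))).PosDef →
        c * (1 + HK A B) *
          (1 + (mK A B : ℝ)) ^ (-(min ((2 * (m : ℝ) + 6) / 3) (((m : ℝ) + 6) / 2) / m)) ≤
          ∑ i, ∑ j, (S i j : ℝ) * G i j := by
  have hx : ∀ (K : Type) [Field K] (A B : K) (Q : (ECK A B).toAffine.Point),
      Pool.Agent.Helper9.LS5.xco Q = xc Q := by
    rintro K _ A B (_ | ⟨x, y, h⟩) <;> rfl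
  obtain ⟨c, hc, h⟩ := Pool.Agent.Helper9.UNI.u_PTM d m hm
  refine ⟨c, hc, ?_⟩
  intro K _ _ _ hK A B hD P hP
  obtain ⟨G, hG, h1, h2⟩ := h K hK A B hD P hP
  simp only [hx] at h1
  exact ⟨G, hG, h1, h2⟩

end Pool.Agent.Results.MP_9a3c31_nt.Concentration
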