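import Pool.Agent.Helper9.UNI.AsmR

open Filter Topology NumberField

namespace Pool.Agent.Results.MP_9a3c31_nt.Regulators

open Pool.Agent.Helper42.LK

/-- The points `P 0, …, P (m - 1)` are linearly independent. -/
def Indep {K : Type} [Field K] [DecidableEq K] {A B : K} {m : ℕ}
    (P : Fin m → (ECK A B).toAffine.Point) : Prop :=
  ∀ k : Fin m → ℤ, k ≠ 0 → ∑ i, k i • P i ≠ 0

/-- `G` is the matrix of the height pairing of the points `P`: the canonical height
`lim h (x (2 ^ n Q)) / 4 ^ n` of `Q = ∑ k i • P i` is `∑ k i * k j * G i j`, for all integers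
`k i`. -/
def IsGram {K : Type} [Field K] [NumberField K] [DecidableEq K] {A B : K} {m : ℕ}
    (P : Fin m → (ECK A B).toAffine.Point) (G : Matrix (Fin m) (Fin m) ℝ) : Prop :=
  G.IsSymm ∧ ∀ k : Fin m → ℤ, Tendsto (fun n : ℕ => hxK (2 ^ n • ∑ i, k i • P i) / 4 ^ n) atTop
    (𝓝 (∑ i, ∑ j, (k i : ℝ) * (k j : ℝ) * G i j))

open Polynomial in
/-- Lower bounds for the regulator of `m` independent points on an arbitrary elliptic curve over a
number field `K` and for the height of `(P 0, …, P (m - 1))` on `E ^ m` with respect to the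
polarisation given by a positive definite integral matrix `S`; the exponents are positive for
`m ≥ 3`, the first one is asymptotic to `3 * m / 5`; the constant depends on `m` and on a bound
`d` for the degree of `K` only. For `m ≥ 3` the regulator is at most `R` for finitely many
`j`-invariants only, for all fields of degree at most `d` together, and over a fixed field for
finitely many curves only, up to isomorphism. -/
theorem result (d m : ℕ) (hm : 1 ≤ m) :
    (∃ c : ℝ, 0 < c ∧ ∀ (K : Type) [Field K] [NumberField K] [DecidableEq K],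
      Module.finrank ℚ K ≤ d → ∀ A B : K, 4 * A ^ 3 + 27 * B ^ 2 ≠ 0 →
      ∀ P : Fin m → (ECK A B).toAffine.Point, Indep P →
      ∃ G : Matrix (Fin m) (Fin m) ℝ, IsGram P G ∧
        c * (1 + HK A B) ^ (max ((2 * (m : ℝ) ^ 2 - m - 12) / (4 * m + 9))
          ((3 * (m : ℝ) ^ 2 - 2 * m - 24) / (5 * m + 14))) ≤ G.det ∧
        ∀ S : Matrix (Fin m) (Fin m) ℤ, (S.map (fun z : ℤ => (z : ℝ))).PosDef →
          c * (1 + HK A B) ^ (max ((2 * (m : ℝ) ^ 2 - m - 12) / (4 * m + 9))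
            ((3 * (m : ℝ) ^ 2 - 2 * m - 24) / (5 * m + 14)) / (m : ℝ)) ≤
            ∑ i, ∑ j, (S i j : ℝ) * G i j) ∧
    (3 ≤ m → ∀ R : ℝ, ∃ F : Finset ℤ[X], (∀ p ∈ F, p ≠ 0) ∧
      ∀ (K : Type) [Field K] [NumberField K] [DecidableEq K], Module.finrank ℚ K ≤ d →
      ∀ A B : K, 4 * A ^ 3 + 27 * B ^ 2 ≠ 0 →
      ∀ P : Fin m → (ECK A B).toAffine.Point, Indep P →
      ∀ G : Matrix (Fin m) (Fin m) ℝ, IsGram P G → G.det ≤ R →
        ∃ p ∈ F, aeval (6912 * A ^ 3 / (4 * A ^ 3 + 27 * B ^ 2)) p = 0) ∧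
    (3 ≤ m → ∀ (K : Type) [Field K] [NumberField K] [DecidableEq K] (R : ℝ),
      ∃ T : Set (K × K), T.Finite ∧ ∀ A B : K, 4 * A ^ 3 + 27 * B ^ 2 ≠ 0 →
      ∀ P : Fin m → (ECK A B).toAffine.Point, Indep P →
      ∀ G : Matrix (Fin m) (Fin m) ℝ, IsGram P G → G.det ≤ R →
        ∃ u : K, u ≠ 0 ∧ (u ^ 4 * A, u ^ 6 * B) ∈ T) := by
  obtain ⟨h1, h2⟩ := Pool.Agent.Helper9.UNI.u_REG d m hm
  exact ⟨h1, h2, fun h3 K _ _ _ => (Pool.Agent.Helper54.LM3.all3 K m hm).2.2 h3⟩

end Pool.Agent.Results.MP_9a3c31_nt.Regulators
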