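import Pool.Agent.Helper9.LS5.AsmR2

open Filter Topology NumberField

namespace Pool.Agent.Results.MP_9a3c31_nt.SparseRegulators

open Pool.Agent.Helper42.LK

/-- The points `P 0, …, P (m - 1)` are linearly independent. -/
def Indep {K : Type} [Field K] [DecidableEq K] {A B : K} {m : ℕ}
    (P : Fin m → (ECK A B).toAffine.Point) : Prop :=
  ∀ k : Fin m → ℤ, k ≠ 0 → ∑ i, k i • P i ≠ 0

/-- `R` is the matrix of the height pairing of the points `P`: the canonical height
`lim h (x (2 ^ n Q)) / 4 ^ n` of `Q = ∑ k i • P i` is `∑ k i * k j * R i j`, for all integers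
`k i`. -/
def IsGram {K : Type} [Field K] [NumberField K] [DecidableEq K] {A B : K} {m : ℕ}
    (P : Fin m → (ECK A B).toAffine.Point) (R : Matrix (Fin m) (Fin m) ℝ) : Prop :=
  R.IsSymm ∧ ∀ k : Fin m → ℤ, Tendsto (fun n : ℕ => hxK (2 ^ n • ∑ i, k i • P i) / 4 ^ n) atTop
    (𝓝 (∑ i, ∑ j, (k i : ℝ) * (k j : ℝ) * R i j))

/-- the `x`-coordinate of a point, `0` at the origin -/
def xc {K : Type} [Field K] {A B : K} : (ECK A B).toAffine.Point → K
  | .zero => 0
  | .some x _ _ => x

/-- `z` is a quotient of two sums of `t` terms `c * g`, where `g` is in `G` and `c` is an element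
of `K` of logarithmic height at most `h` -/
def SparseQuot {K : Type} [Field K] [NumberField K] (G : Subgroup Kˣ) (t : ℕ) (h : ℝ) (z : K) :
    Prop :=
  ∃ (c c' : Fin t → K) (g g' : Fin t → Kˣ), (∀ i, g i ∈ G ∧ g' i ∈ G ∧
    Height.logHeight₁ (c i) ≤ h ∧ Height.logHeight₁ (c' i) ≤ h) ∧
    ∑ i, c' i * (g' i : K) ≠ 0 ∧ z * ∑ i, c' i * (g' i : K) = ∑ i, c i * (g i : K)

/-- Lower bounds for the regulator of `m` independent points `P i = (x i, y i)` on the elliptic
curve `y ^ 2 = x ^ 3 + A x + B` over the number field `K` and for the height of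
`(P 0, …, P (m - 1))` on `E ^ m` with respect to the polarisation given by a positive definite
integral matrix `S`, if the invariants `A ^ 3 / B ^ 2` of the curve and `A * x i / B` of the points
are sparse quotients, with coefficients of height `h` at most `c` times the height of the curve,
and the heights of the points are at most `M` times the height of the curve: the regulator is at
least `c` times the `m`-th power, and the height at least `c` times the height of the curve. -/
theorem result (K : Type) [Field K] [NumberField K] [DecidableEq K] (G : Subgroup Kˣ) (hG : G.FG)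
    (t m : ℕ) (hm : 1 ≤ m) (M : ℝ) : ∃ c : ℝ, 0 < c ∧ ∀ A B : K, 4 * A ^ 3 + 27 * B ^ 2 ≠ 0 →
    ∀ P : Fin m → (ECK A B).toAffine.Point, Indep P →
    ∃ R : Matrix (Fin m) (Fin m) ℝ, IsGram P R ∧
      ∀ h : ℝ, 0 ≤ h → h ≤ c * (1 + HK A B) → (∀ i, R i i ≤ M * (1 + HK A B)) →
        SparseQuot G t h (A ^ 3 / B ^ 2) → (∀ i, SparseQuot G t h (A * xc (P i) / B)) →
        c * (1 + HK A B) ^ m ≤ R.det ∧
        ∀ S : Matrix (Fin m) (Fin m) ℤ, (S.map (fun z : ℤ => (z : ℝ))).PosDef →
          c * (1 + HK A B) ≤ ∑ i, ∑ j, (S i j : ℝ) * R i j := by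
  obtain ⟨c, hc, H⟩ := Pool.Agent.Helper9.LS5.r_regs K G t m M hG hm
  refine ⟨c, hc, fun A B hD P hP => ?_⟩
  obtain ⟨R, hR, h1⟩ := H A B hD P hP
  refine ⟨R, hR, fun h hh0 hh1 hM q1 q2 => ?_⟩
  refine h1 h hh0 hh1 hM q1 fun i => ?_
  have h2 := q2 i
  have h3 : xc (P i) = Pool.Agent.Helper9.LS5.xco (P i) := by
    cases P i <;> rfl
  rw [h3] at h2
  exact h2

end Pool.Agent.Results.MP_9a3c31_nt.SparseRegulators
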