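import Pool.Agent.Helper9.UNI.AsmS

open Filter Topology NumberField

namespace Pool.Agent.Results.MP_9a3c31_nt.SquareRoot

open Pool.Agent.Helper42.LK Pool.Agent.Helper92.LV

/-- Lower bounds for the canonical height of a point `P = (P 0, …, P (m - 1))` of `E ^ m`, not
torsion, with respect to the polarisation given by a positive definite integral matrix `S`, for an
arbitrary elliptic curve `E` over a number field `K`; the constant depends on `m` and on a bound
`d` for the degree of `K` only. The first bound is in essence the case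
`X ^ 2 = 2 * (1 + HK A B)` of the second one, where `LW A B X = 0`. -/
theorem result (d m : ℕ) (hm : 1 ≤ m) :
    ∃ c : ℝ, 0 < c ∧ ∀ (K : Type) [Field K] [NumberField K] [DecidableEq K],
    Module.finrank ℚ K ≤ d → ∀ A B : K, 4 * A ^ 3 + 27 * B ^ 2 ≠ 0 →
    ∀ P : Fin m → (ECK A B).toAffine.Point, (∃ i, ∀ n : ℕ, 0 < n → n • P i ≠ 0) →
    ∃ G : Matrix (Fin m) (Fin m) ℝ, IsGr P G ∧
      ∀ S : Matrix (Fin m) (Fin m) ℤ, (S.map (fun z : ℤ => (z : ℝ))).PosDef →
        c * (1 + HK A B) ^ (-(1 / 2 : ℝ)) ≤ ∑ i, ∑ j, (S i j : ℝ) * G i j ∧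
        ∀ X : ℝ, 1 ≤ X → X * LW A B X ≤ c * (1 + HK A B) →
          c * (1 + HK A B) / X ^ 3 ≤ ∑ i, ∑ j, (S i j : ℝ) * G i j :=
  Pool.Agent.Helper9.UNI.u_SQR d m hm

end Pool.Agent.Results.MP_9a3c31_nt.SquareRoot
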